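import Pool.Agent.Helper49.LT.StA

/-!
# Project LT (MP_b21509_co): module GAU, the gauge along the base curve

The directional derivatives of the gauge at the points of the base curve are estimated by the convexity of the gauge
along the tangent line.
-/

set_option autoImplicit false

namespace Pool.Agent.Helper66.LT

open Helper49.LT Helper97.CB MeasureTheory Set Filter Metric Asymptotics Topology

section gauge

variable {K : Set ℂ} {κ : ℝ}

private theorem nhd (h1 : κ ≤ 1 / 100) (hin : closedBall (0 : ℂ) (1 - κ) ⊆ K) : K ∈ 𝓝 (0 : ℂ) :=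
  mem_of_superset (closedBall_mem_nhds _ (by linarith)) hin

private theorem g_up (hin : closedBall (0 : ℂ) (1 - κ) ⊆ K) (z : ℂ) :
    (1 - κ) * gauge K z ≤ ‖z‖ :=
  mul_gauge_le_norm (ball_subset_closedBall.trans hin)

private theorem g_lo (h0 : 0 ≤ κ) (h1 : κ ≤ 1 / 100) (hin : closedBall (0 : ℂ) (1 - κ) ⊆ K)
    (hout : K ⊆ closedBall (0 : ℂ) (1 + κ)) (z : ℂ) : ‖z‖ ≤ (1 + κ) * gauge K z := by
  have h := le_gauge_of_subset_closedBall (x := z) (absorbent_nhds_zero (nhd h1 hin)) (by linarith) hout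
  rw [div_le_iff₀ (by linarith)] at h
  linarith

private theorem g_convex (hK : Convex ℝ K) (h0 : K ∈ 𝓝 (0 : ℂ)) (z v : ℂ) (t : ℝ) :
    ConvexOn ℝ univ (fun s : ℝ => gauge K (z + ((s - t : ℝ) : ℂ) * v)) := by
  refine ⟨convex_univ, ?_⟩
  intro p _ q _ a b ha hb hab
  have e : z + ((a • p + b • q - t : ℝ) : ℂ) * v =
      a • (z + ((p - t : ℝ) : ℂ) * v) + b • (z + ((q - t : ℝ) : ℂ) * v) := by
    simp only [Complex.real_smul, smul_eq_mul]
    push_cast
    have hab' : (a : ℂ) + b = 1 := by exact_mod_cast hab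
    linear_combination (t * v - z) * hab'
  show gauge K (z + ((a • p + b • q - t : ℝ) : ℂ) * v) ≤ _
  rw [e]
  refine (gauge_add_le hK (absorbent_nhds_zero h0) _ _).trans ?_
  rw [gauge_smul_of_nonneg ha, gauge_smul_of_nonneg hb]

end gauge

/-- position and tangent vector are almost orthogonal -/
private theorem ortho (x : ℂ × ℂ) (hx : ‖x‖ ≤ 1 / 100) (t : ℝ) :
    |(zh x t * (starRingEnd ℂ) (zd x t)).re| ≤ 9 * ‖x‖ := by
  have e : zh x t * (starRingEnd ℂ) (zd x t) =
      (zh x t - ee t) * (starRingEnd ℂ) (zd x t) + ee t * (starRingEnd ℂ) (zd x t - Complex.I * ee t)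
        + ee t * (starRingEnd ℂ) (Complex.I * ee t) := by
    rw [map_sub]; ring
  have e2 : ee t * (starRingEnd ℂ) (Complex.I * ee t) = -Complex.I := by
    rw [map_mul, Complex.conj_I]
    have := ee_mul_conj t
    linear_combination (-Complex.I) * this
  have h1 := zh_sub_ee x t
  have h2 := zd_sub_ee x t
  have h3 : ‖zd x t‖ ≤ 1 + 6 * ‖x‖ := by
    have h := norm_add_le (zd x t - Complex.I * ee t) (Complex.I * ee t)
    rw [sub_add_cancel, norm_mul, Complex.norm_I, norm_ee, one_mul] at h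
    linarith
  have h4 : |((zh x t - ee t) * (starRingEnd ℂ) (zd x t)).re| ≤ 2 * ‖x‖ * (1 + 6 * ‖x‖) := by
    refine (Complex.abs_re_le_norm _).trans ?_
    rw [norm_mul, RCLike.norm_conj]
    exact mul_le_mul h1 h3 (norm_nonneg _) (by positivity)
  have h5 : |(ee t * (starRingEnd ℂ) (zd x t - Complex.I * ee t)).re| ≤ 6 * ‖x‖ := by
    refine (Complex.abs_re_le_norm _).trans ?_
    rw [norm_mul, RCLike.norm_conj, norm_ee, one_mul]
    exact h2
  rw [e, e2, Complex.add_re, Complex.add_re, Complex.neg_re, Complex.I_re, neg_zero, add_zero]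
  refine (abs_add_le _ _).trans ?_
  have := norm_nonneg x
  nlinarith

/-- the norm along an almost orthogonal line -/
private theorem norm_line {z v : ℂ} {c τ : ℝ} (hz : 49 / 50 ≤ ‖z‖) (hv : ‖v‖ ≤ 53 / 50)
    (hc : |(z * (starRingEnd ℂ) v).re| ≤ c) (hτ : 0 ≤ τ) :
    ‖z + (τ : ℂ) * v‖ ≤ ‖z‖ + 2 * (τ * c + τ ^ 2) := by
  have hc0 : 0 ≤ c := (abs_nonneg _).trans hc
  have h1 : ‖z + (τ : ℂ) * v‖ ^ 2 = ‖z‖ ^ 2 + τ ^ 2 * ‖v‖ ^ 2 + 2 * (τ * (z * (starRingEnd ℂ) v).re) := by
    rw [← Complex.normSq_eq_norm_sq, ← Complex.normSq_eq_norm_sq, ← Complex.normSq_eq_norm_sq,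
      Complex.normSq_add, Complex.normSq_mul, Complex.normSq_ofReal]
    have : z * (starRingEnd ℂ) ((τ : ℂ) * v) = (τ : ℂ) * (z * (starRingEnd ℂ) v) := by
      rw [map_mul, Complex.conj_ofReal]; ring
    rw [this, Complex.re_ofReal_mul]
    ring
  have h2 := (abs_le.1 hc).2
  apply le_of_sq_le_sq _ (by positivity)
  rw [h1]
  have h3 : τ * (z * (starRingEnd ℂ) v).re ≤ τ * c := mul_le_mul_of_nonneg_left h2 hτ
  have h4 : ‖v‖ ^ 2 ≤ (53 / 50) ^ 2 := by
    have := norm_nonneg v
    nlinarith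
  have h5 : 0 ≤ τ * c := by positivity
  have h6 : τ ^ 2 * ‖v‖ ^ 2 ≤ τ ^ 2 * (53 / 50) ^ 2 := mul_le_mul_of_nonneg_left h4 (by positivity)
  have h7 : 49 / 50 * (τ * c + τ ^ 2) ≤ ‖z‖ * (τ * c + τ ^ 2) :=
    mul_le_mul_of_nonneg_right hz (by positivity)
  nlinarith [sq_nonneg (τ * c + τ ^ 2)]

/-- the data of a body near the unit disk -/
private structure Dat (K : Set ℂ) (κ : ℝ) : Prop where
  body : IsBody K
  nn : 0 ≤ κ
  le : κ ≤ 1 / 100
  inn : closedBall (0 : ℂ) (1 - κ) ⊆ K
  out : K ⊆ closedBall (0 : ℂ) (1 + κ)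

section

variable {K : Set ℂ} {κ : ℝ} {x : ℂ × ℂ}

/-- a difference quotient of the gauge -/
private theorem quot (D : Dat K κ) {z v : ℂ} {c τ : ℝ} (hz : 49 / 50 ≤ ‖z‖) (hz' : ‖z‖ ≤ 51 / 50)
    (hv : ‖v‖ ≤ 53 / 50) (hc : |(z * (starRingEnd ℂ) v).re| ≤ c) (hτ : 0 ≤ τ) :
    gauge K (z + (τ : ℂ) * v) - gauge K z ≤ 3 * κ + 4 * (τ * c + τ ^ 2) := by
  have hc0 : 0 ≤ c := (abs_nonneg _).trans hc
  have h1 := norm_line hz hv hc hτ
  have h2 := g_up D.inn (z + (τ : ℂ) * v)
  have h3 := g_lo D.nn D.le D.inn D.out z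
  have h4 := g_up D.inn z
  have h5 : 0 ≤ τ * c := by positivity
  have h6 := sq_nonneg τ
  have hk := D.nn
  have hk' := D.le
  have g0 := gauge_nonneg (s := K) z
  have h7 : gauge K z ≤ 11 / 10 := by nlinarith
  have h8 : (1 - κ) * (gauge K (z + (τ : ℂ) * v) - gauge K z) ≤
      2 * κ * gauge K z + 2 * (τ * c + τ ^ 2) := by nlinarith
  have h9 : (1 - κ) * (gauge K (z + (τ : ℂ) * v) - gauge K z) ≤
      22 / 10 * κ + 2 * (τ * c + τ ^ 2) := by nlinarith
  by_contra hcon
  push Not at hcon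
  have h10 : (1 - κ) * (3 * κ + 4 * (τ * c + τ ^ 2)) <
      (1 - κ) * (gauge K (z + (τ : ℂ) * v) - gauge K z) :=
    mul_lt_mul_of_pos_left hcon (by linarith)
  nlinarith [mul_nonneg hk h5, mul_nonneg hk h6]

/-- the right derivative of the gauge along the base curve -/
private theorem rderiv (D : Dat K κ) (hx : ‖x‖ ≤ 1 / 100) (t : ℝ) :
    ∃ d : ℝ, HasDerivWithinAt (fun s => gauge K (zh x s)) d (Ioi t) t ∧
      |d| ≤ 7 * Real.sqrt κ + 36 * ‖x‖ := by
  have hK0 := nhd D.le D.inn
  set z := zh x t with hz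
  set v := zd x t with hv
  have hcv := g_convex D.body.1 hK0 z v t
  set f : ℝ → ℝ := fun s : ℝ => gauge K (z + ((s - t : ℝ) : ℂ) * v) with hf
  have hint : t ∈ interior (univ : Set ℝ) := by rw [interior_univ]; exact mem_univ t
  refine ⟨derivWithin f (Ioi t) t, ?_, ?_⟩
  · have hd := hcv.hasDerivWithinAt_rightDeriv_of_mem_interior hint
    rw [hasDerivWithinAt_iff_isLittleO] at hd ⊢
    obtain ⟨L, hL⟩ := D.body.1.lipschitz_gauge hK0
    have h1 := (hasDerivAt_zh x t).hasDerivWithinAt (s := Ioi t)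
    rw [hasDerivWithinAt_iff_isLittleO] at h1
    have h2 : (fun s : ℝ => gauge K (zh x s) - f s) =O[𝓝[Ioi t] t]
        (fun s : ℝ => zh x s - zh x t - (s - t) • zd x t) := by
      apply IsBigO.of_bound (L : ℝ)
      filter_upwards with s
      have h3 := hL.dist_le_mul (zh x s) (z + ((s - t : ℝ) : ℂ) * v)
      rw [Real.dist_eq, dist_eq_norm] at h3
      rw [Real.norm_eq_abs]
      have h5 : zh x s - (z + ((s - t : ℝ) : ℂ) * v) = zh x s - zh x t - (s - t) • zd x t := by
        rw [Complex.real_smul]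
        ring
      rw [h5] at h3
      exact h3
    have h3 := (h2.trans_isLittleO h1).add hd
    refine h3.congr_left fun s => ?_
    have h4 : f t = gauge K (zh x t) := by
      show gauge K (z + ((t - t : ℝ) : ℂ) * v) = _
      rw [sub_self, Complex.ofReal_zero, zero_mul, add_zero]
    rw [h4]
    ring
  · have hzl : 49 / 50 ≤ ‖z‖ := by
      have := le_norm_zh x t
      linarith
    have hzu : ‖z‖ ≤ 51 / 50 := by
      have := norm_zh_le x t
      linarith
    have hvu : ‖v‖ ≤ 53 / 50 := by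
      have h2 := zd_sub_ee x t
      have h := norm_add_le (zd x t - Complex.I * ee t) (Complex.I * ee t)
      rw [sub_add_cancel, norm_mul, Complex.norm_I, norm_ee, one_mul] at h
      linarith
    have hor := ortho x hx t
    have hft : f t = gauge K z := by
      show gauge K (z + ((t - t : ℝ) : ℂ) * v) = _
      rw [sub_self, Complex.ofReal_zero, zero_mul, add_zero]
    -- bounds for every positive step
    have key : ∀ τ : ℝ, 0 < τ → |derivWithin f (Ioi t) t| * τ ≤ 3 * κ + 4 * (τ * (9 * ‖x‖) + τ ^ 2) := by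
      intro τ hτ
      have hup : derivWithin f (Ioi t) t * τ ≤ 3 * κ + 4 * (τ * (9 * ‖x‖) + τ ^ 2) := by
        have h1 := hcv.rightDeriv_le_slope_of_mem_interior hint (mem_univ (t + τ)) (by linarith)
        rw [slope_def_field, le_div_iff₀ (by linarith), add_sub_cancel_left] at h1
        refine h1.trans ?_
        have h2 := quot D hzl hzu hvu hor hτ.le
        have h3 : f (t + τ) = gauge K (z + (τ : ℂ) * v) := by
          show gauge K (z + ((t + τ - t : ℝ) : ℂ) * v) = _
          rw [add_sub_cancel_left]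
        rw [← h3, ← hft] at h2
        exact h2
      have hlo : -(derivWithin f (Ioi t) t * τ) ≤ 3 * κ + 4 * (τ * (9 * ‖x‖) + τ ^ 2) := by
        have h1 := (hcv.slope_le_leftDeriv_of_mem_interior (mem_univ (t - τ)) hint (by linarith)).trans
          (hcv.leftDeriv_le_rightDeriv_of_mem_interior hint)
        rw [slope_def_field, div_le_iff₀ (by linarith), sub_sub_cancel] at h1
        have hor' : |(z * (starRingEnd ℂ) (-v)).re| ≤ 9 * ‖x‖ := by
          rw [map_neg, mul_neg, Complex.neg_re, abs_neg]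
          exact hor
        have h2 := quot D hzl hzu (by rw [norm_neg]; exact hvu) hor' hτ.le
        have h3 : f (t - τ) = gauge K (z + (τ : ℂ) * (-v)) := by
          show gauge K (z + ((t - τ - t : ℝ) : ℂ) * v) = _
          congr 1
          push_cast
          ring
        rw [← h3, ← hft] at h2
        linarith
      rcases abs_cases (derivWithin f (Ioi t) t) with ⟨h, _⟩ | ⟨h, _⟩
      · rw [h]; exact hup
      · rw [h, neg_mul]; exact hlo
    apply le_of_forall_pos_le_add
    intro ε hε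
    have hs := Real.sqrt_nonneg κ
    have hsq : Real.sqrt κ * Real.sqrt κ = κ := Real.mul_self_sqrt D.nn
    have hτ : 0 < Real.sqrt κ + ε / 4 := by positivity
    have h1 := key _ hτ
    have h2 : 3 * κ ≤ 3 * Real.sqrt κ * (Real.sqrt κ + ε / 4) := by nlinarith
    have h3 : |derivWithin f (Ioi t) t| * (Real.sqrt κ + ε / 4) ≤
        (7 * Real.sqrt κ + 36 * ‖x‖ + ε) * (Real.sqrt κ + ε / 4) := by nlinarith
    exact le_of_mul_le_mul_right h3 hτ

end

theorem hGAU : StGau := by
  refine ⟨80, by norm_num, ?_⟩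
  intro K x κ hK h0 h1 hin hout hx
  have D : Dat K κ := ⟨hK, h0, h1, hin, hout⟩
  have hK0 := nhd h1 hin
  have hnx := norm_nonneg x
  have hs := Real.sqrt_nonneg κ
  have hκs : κ ≤ Real.sqrt κ := by
    have hsq : Real.sqrt κ * Real.sqrt κ = κ := Real.mul_self_sqrt h0
    have h2 : Real.sqrt κ ≤ 1 := by
      rw [Real.sqrt_le_one]
      linarith
    nlinarith
  have gl : ∀ t, 95 / 100 ≤ gauge K (zh x t) := by
    intro t
    have h2 := g_lo h0 h1 hin hout (zh x t)
    have h3 := le_norm_zh x t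
    have h4 := gauge_nonneg (s := K) (zh x t)
    nlinarith
  have gp : ∀ t, 0 < gauge K (zh x t) := fun t => by linarith [gl t]
  have gb : ∀ t, |1 - gauge K (zh x t)| ≤ 4 * ‖x‖ + 2 * κ := by
    intro t
    have h2 := g_lo h0 h1 hin hout (zh x t)
    have h3 := le_norm_zh x t
    have h4 := g_up hin (zh x t)
    have h5 := norm_zh_le x t
    have h6 : gauge K (zh x t) ≤ 11 / 10 := by nlinarith [gp t]
    rw [abs_le]
    constructor
    · nlinarith [gp t]
    · nlinarith [gp t]
  refine ⟨?_, fun t => derivWithin (fun t => (gauge K (zh x t))⁻¹ - 1) (Ioi t) t, ?_⟩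
  · intro t ξ hξ
    have e : ((1 + ξ : ℝ) : ℂ) * zh x t = (1 + ξ) • zh x t := by
      rw [Complex.real_smul]
    have h2 : ((1 + ξ : ℝ) : ℂ) * zh x t ∈ K ↔ gauge K (((1 + ξ : ℝ) : ℂ) * zh x t) ≤ 1 := by
      rw [gauge_le_one_iff_mem_closure hK.1 hK0, hK.2.1.isClosed.closure_eq]
    rw [h2, e, gauge_smul_of_nonneg (by linarith), smul_eq_mul, ← le_div_iff₀ (gp t), one_div]
    constructor
    · intro h; linarith
    · intro h; linarith
  · have hper : ∀ t, (gauge K (zh x (t + 2 * Real.pi)))⁻¹ - 1 = (gauge K (zh x t))⁻¹ - 1 := by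
      intro t
      rw [zh_per]
    have hder : ∀ t, ∃ d : ℝ, HasDerivWithinAt (fun t => (gauge K (zh x t))⁻¹ - 1) d (Ioi t) t ∧
        |d| ≤ 80 * (Real.sqrt κ + ‖x‖) := by
      intro t
      obtain ⟨d, hd, hdb⟩ := rderiv D hx t
      refine ⟨_, (hd.inv (gp t).ne').sub_const 1, ?_⟩
      have hp : 0 < gauge K (zh x t) ^ 2 := pow_pos (gp t) 2
      rw [abs_div, abs_neg, abs_of_pos hp, div_le_iff₀ hp]
      have h2 := gl t
      have h3 : 9 / 10 ≤ gauge K (zh x t) ^ 2 := by nlinarith
      nlinarith [abs_nonneg d]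
    have hder' : ∀ t, HasDerivWithinAt (fun t => (gauge K (zh x t))⁻¹ - 1)
        (derivWithin (fun t => (gauge K (zh x t))⁻¹ - 1) (Ioi t) t) (Ioi t) t := by
      intro t
      obtain ⟨d, hd, -⟩ := hder t
      exact hd.differentiableWithinAt.hasDerivWithinAt
    exact {
      per := hper
      per' := by
        intro t
        have h2 := derivWithin_comp_add_const (fun t => (gauge K (zh x t))⁻¹ - 1) (2 * Real.pi) (Ioi t) t
        simp only [hper] at h2
        rw [h2]
        congr 1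
        ext s
        rw [mem_Ioi, Set.mem_vadd_set]
        constructor
        · intro h
          exact ⟨s - 2 * Real.pi, by rw [mem_Ioi]; linarith, by rw [vadd_eq_add]; ring⟩
        · rintro ⟨r, hr, rfl⟩
          rw [mem_Ioi] at hr
          rw [vadd_eq_add]
          linarith
      con := by
        refine Continuous.sub (Continuous.inv₀ ?_ fun t => (gp t).ne') continuous_const
        exact (continuous_gauge hK.1 hK0).comp (continuous_zh x)
      der := hder'
      mea := measurable_derivWithin_Ioi _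
      bdd := by
        intro t
        have h2 := gl t
        have h3 := gb t
        have e : (gauge K (zh x t))⁻¹ - 1 = (1 - gauge K (zh x t)) / gauge K (zh x t) := by
          rw [sub_div, div_self (gp t).ne', one_div]
        rw [e, abs_div, abs_of_pos (gp t), div_le_iff₀ (gp t)]
        nlinarith
      bdd' := by
        intro t
        obtain ⟨d, hd, hb⟩ := hder t
        rw [hd.derivWithin (uniqueDiffWithinAt_Ioi t)]
        exact hb }

end Pool.Agent.Helper66.LT
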